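import Pool.Agent.Y887.QK.Stm

/-!
# The forms attached to the points of a modular hyperbola (T2-FORM)
-/

set_option autoImplicit false

namespace Pool.Agent.Y672.T2

open Finset Pool.Agent.Y887.QKS

theorem t_form : S_form := by
  intro a Q2 ℓ _ c x ha hQ hQℓ haℓ hmod hc b v hb hv
  have hℓ : ℓ.Prime := Fact.out
  -- the coordinates
  have hb0 : 0 < b := by
    rw [hb]
    exact Nat.pos_of_ne_zero ((ZMod.val_ne_zero _).mpr x.ne_zero)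
  have hbℓ : b < ℓ := by
    rw [hb]
    exact ZMod.val_lt _
  have hv0 : 0 < v := by
    rw [hv]
    exact Nat.pos_of_ne_zero ((ZMod.val_ne_zero _).mpr (c * x⁻¹).ne_zero)
  have hvℓ : v < ℓ := by
    rw [hv]
    exact ZMod.val_lt _
  have hbx : (b : ZMod ℓ) = (x : ZMod ℓ) := by
    rw [hb]
    exact ZMod.natCast_zmod_val _
  have hvx : (v : ZMod ℓ) = ((c * x⁻¹ : (ZMod ℓ)ˣ) : ZMod ℓ) := by
    rw [hv]
    exact ZMod.natCast_zmod_val _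
  have hdvd : ℓ ∣ 1 + (Q2 * v) * (Q2 * b) := by
    rw [← ZMod.natCast_eq_zero_iff]
    push_cast
    rw [hbx, hvx, Units.val_mul]
    have h1 : ((x⁻¹ : (ZMod ℓ)ˣ) : ZMod ℓ) * (x : ZMod ℓ) = 1 := Units.inv_mul x
    linear_combination (c : ZMod ℓ) * (Q2 : ZMod ℓ) ^ 2 * h1 + hc
  have he : ℓ * dK Q2 ℓ b v = 1 + (Q2 * v) * (Q2 * b) := Nat.mul_div_cancel' hdvd
  have hal : alK a Q2 ℓ v = ℓ ^ 2 + a * (Q2 * v) ^ 2 := rfl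
  have hk : kK a Q2 ℓ b v = ℓ * (Q2 * b) + a * (Q2 * v) * dK Q2 ℓ b v := rfl
  have hga : gaK a Q2 ℓ b v = (Q2 * b) ^ 2 + a * dK Q2 ℓ b v ^ 2 := rfl
  generalize dK Q2 ℓ b v = d at he hal hk hga ⊢
  rw [hal, hk, hga]
  have heZ : (ℓ : ℤ) * d = 1 + (Q2 * v) * (Q2 * b) := by exact_mod_cast he
  have hdle : d ≤ Q2 ^ 2 * ℓ := by
    refine le_of_mul_le_mul_left (a := ℓ) ?_ hℓ.pos
    rw [he]
    have h1 : v * b ≤ (ℓ - 1) * (ℓ - 1) := Nat.mul_le_mul (by omega) (by omega)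
    obtain ⟨m, rfl⟩ : ∃ m, ℓ = m + 1 := ⟨ℓ - 1, by have := hℓ.pos; omega⟩
    simp only [Nat.add_sub_cancel] at h1
    have h2 : Q2 ^ 2 * (v * b) ≤ Q2 ^ 2 * (m * m) := Nat.mul_le_mul_left _ h1
    have h3 : 1 ≤ Q2 ^ 2 := Nat.one_le_pow _ _ hQ
    nlinarith
  refine ⟨⟨hb0, hbℓ, hv0, hvℓ, he⟩, ⟨?_, ?_, ?_⟩, ?_, ⟨?_, ?_, ?_, ?_⟩, ?_⟩
  · have h1 : ℓ ^ 2 ≡ 1 ^ 2 [MOD Q2] := hmod.pow 2
    have h2 : a * (Q2 * v) ^ 2 ≡ 0 [MOD Q2] :=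
      (Nat.modEq_zero_iff_dvd).mpr ⟨a * (Q2 * v ^ 2), by ring⟩
    have h3 := h1.add h2
    simpa using h3
  · exact (Nat.modEq_zero_iff_dvd).mpr ⟨ℓ * b + a * v * d, by ring⟩
  · obtain ⟨t, ht⟩ := (Nat.modEq_iff_dvd).mp hmod.symm
    push_cast at ht ⊢
    have hd : (d : ℤ) - 1 = Q2 * (v * (Q2 * b) - t * d) := by
      linear_combination heZ - (d : ℤ) * ht
    refine ⟨Q2 * b ^ 2 + a * (d + 1) * (v * (Q2 * b) - t * d), ?_⟩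
    linear_combination (a : ℤ) * (d + 1) * hd
  · push_cast
    linear_combination (-(a : ℤ)) * (ℓ * d - (Q2 * v) * (Q2 * b) + 1) * heZ
  · have h1 : 0 < (Q2 * b) ^ 2 := by positivity
    omega
  · have h1 : (Q2 * v) ^ 2 ≤ (Q2 * ℓ) ^ 2 := Nat.pow_le_pow_left (Nat.mul_le_mul_left _ hvℓ.le) 2
    have h2 : a * (Q2 * v) ^ 2 ≤ a * (Q2 * ℓ) ^ 2 := Nat.mul_le_mul_left _ h1
    have h3 : Q2 ^ 2 * ℓ ^ 2 ≤ Q2 ^ 4 * ℓ ^ 2 :=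
      Nat.mul_le_mul_right _ (Nat.pow_le_pow_right hQ (by norm_num))
    have h4 : ℓ ^ 2 ≤ Q2 ^ 4 * ℓ ^ 2 := Nat.le_mul_of_pos_left _ (by positivity)
    have h5 : a * (Q2 ^ 2 * ℓ ^ 2) ≤ a * (Q2 ^ 4 * ℓ ^ 2) := Nat.mul_le_mul_left _ h3
    nlinarith
  · have h1 : ℓ * (Q2 * b) ≤ ℓ * (Q2 * ℓ) :=
      Nat.mul_le_mul_left _ (Nat.mul_le_mul_left _ hbℓ.le)
    have h2 : a * (Q2 * v) * d ≤ a * (Q2 * ℓ) * (Q2 ^ 2 * ℓ) :=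
      Nat.mul_le_mul (Nat.mul_le_mul_left _ (Nat.mul_le_mul_left _ hvℓ.le)) hdle
    have h3 : Q2 ^ 1 * ℓ ^ 2 ≤ Q2 ^ 4 * ℓ ^ 2 :=
      Nat.mul_le_mul_right _ (Nat.pow_le_pow_right hQ (by norm_num))
    have h4 : Q2 ^ 3 * ℓ ^ 2 ≤ Q2 ^ 4 * ℓ ^ 2 :=
      Nat.mul_le_mul_right _ (Nat.pow_le_pow_right hQ (by norm_num))
    have h5 : a * (Q2 ^ 3 * ℓ ^ 2) ≤ a * (Q2 ^ 4 * ℓ ^ 2) := Nat.mul_le_mul_left _ h4
    nlinarith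
  · have h1 : (Q2 * b) ^ 2 ≤ (Q2 * ℓ) ^ 2 := Nat.pow_le_pow_left (Nat.mul_le_mul_left _ hbℓ.le) 2
    have h2 : a * d ^ 2 ≤ a * (Q2 ^ 2 * ℓ) ^ 2 :=
      Nat.mul_le_mul_left _ (Nat.pow_le_pow_left hdle 2)
    have h3 : Q2 ^ 2 * ℓ ^ 2 ≤ Q2 ^ 4 * ℓ ^ 2 :=
      Nat.mul_le_mul_right _ (Nat.pow_le_pow_right hQ (by norm_num))
    nlinarith
  · intro X p hp hpℓ
    have : NeZero p := ⟨hp.ne_zero⟩
    have : Fact p.Prime := ⟨hp⟩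
    have hℓp : (ℓ : ZMod p) ≠ 0 := by
      rw [Ne, ZMod.natCast_eq_zero_iff]
      intro h
      rcases (Nat.dvd_prime hℓ).mp h with h1 | h1
      · exact hp.one_lt.ne' h1
      · exact hpℓ.ne h1
    have hep : (ℓ : ZMod p) * d = 1 + (Q2 * v) * (Q2 * b) := by
      exact_mod_cast congrArg (Nat.cast (R := ZMod p)) he
    have hid : (ℓ : ZMod p) ^ 2 * (((ℓ ^ 2 + a * (Q2 * v) ^ 2) * X ^ 2 +
        2 * (ℓ * (Q2 * b) + a * (Q2 * v) * d) * X + ((Q2 * b) ^ 2 + a * d ^ 2) : ℕ) : ZMod p) =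
        ((ℓ : ZMod p) * ((ℓ : ZMod p) * X + Q2 * b)) ^ 2 +
      (a : ZMod p) * ((Q2 : ZMod p) * v * ((ℓ : ZMod p) * X + Q2 * b) + 1) ^ 2 := by
      push_cast
      linear_combination (a : ZMod p) * (ℓ * (Q2 * v) * X + ℓ * d +
        (Q2 : ZMod p) * v * ((ℓ : ZMod p) * X + Q2 * b) + 1) * hep
    rw [Om, mem_filter, ← ZMod.natCast_eq_zero_iff]
    simp only [mem_univ, true_and]
    rw [← hid, mul_eq_zero]
    constructor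
    · exact fun h => Or.inr h
    · rintro (h | h)
      · exact absurd h (pow_ne_zero 2 hℓp)
      · exact h

end Pool.Agent.Y672.T2
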